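import Pool.Agent.Lib.MP_fb3619_al.Iface

/-! # BILA: an f-map with base line `c` is invariant under `TT a c` -/

set_option autoImplicit false

universe u

namespace Pool.Agent.FourGp.H75

open Equiv

theorem bila : BilaS.{u} := by
  intro P g h a b c w₁ w₂ m y γ hab hbc hac hγ hw₁ hs₁ hw₂ hs₂ ham hmc hyb hyc
  have hγm : γ.2 m = m := hγ.lns m ham
  have hγc : γ.2 c = c := hγ.lns c hac
  have hγy : γ.1 y = y := hγ.pts y (h.perp_symm _ _ hyc)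
  have hbc' : ¬ g.st b c := h.perp_st _ _ hbc
  have e1 : ¬ g.st w₁ y := fun e =>
    hbc' (h.st_trans _ _ _ (h.st_symm _ _ hyb) (h.st_trans _ _ _ (h.st_symm _ _ e) hs₁))
  have e2 : g.st m w₁ := h.st_trans _ _ _ hmc (h.st_symm _ _ hs₁)
  have e3 := h.pr_st e1 e2
  have e4 : ¬ g.st w₂ (g.pr w₁ m y) := fun e =>
    hbc' (h.st_trans _ _ _ (h.st_symm _ _ hyb) (h.st_trans _ _ _ (h.st_symm _ _ e3)
      (h.st_trans _ _ _ (h.st_symm _ _ e) hs₂)))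
  have e5 : g.st c w₂ := h.st_symm _ _ hs₂
  have k1 := h.col_pr hγ.toCol e1 e2
  have k2 := h.col_pr hγ.toCol e4 e5
  rw [hγm, hγy] at k1
  rw [hγc, k1] at k2
  have k3 : γ.1 (g.pr w₂ c (g.pr w₁ m y)) = g.pr w₂ c (g.pr w₁ m y) :=
    hγ.pts _ (h.perp_symm _ _ (h.pr_perp e4 e5))
  unfold Inc.fm
  rw [← k2, k3]

end Pool.Agent.FourGp.H75
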